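import Mathlib
import Pool.Agent.KFV.OSD

open Representation Pool.Agent.KFV

namespace Pool.Agent.Results.MP_1993d0_al.KleinFourDuality

universe u v w z

/-- Sources of the simple modules `M` with Klein four vertices for which the dual of `M` is
isomorphic to the product of a one-dimensional module and of a twist of `M` by automorphisms of the
group and of the field, and of all the simple modules with Klein four vertices of the groups with an
automorphism `φ` such that `φ g` is conjugate to the inverse of `g ^ (2 ^ j)` for all `g` of odd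
order: exactly two classes, and self-dual simple modules give both. -/
theorem result (F : Type u) [Field F] [IsAlgClosed F] [CharP F 2] :
    (∀ (G : Type v) [Group G] [Finite G] (V : Type w) [AddCommGroup V] [Module F V]
      [FiniteDimensional F V] (ρ : Representation F G V) (Q : Subgroup G) (L : Type z)
      [AddCommGroup L] [Module F L] [FiniteDimensional F L] (σ : Representation F Q L),
      ρ.IsIrreducible → IsKleinFour Q → IsVertexSource ρ Q σ → (DualTwist ρ ∨ InvConj G) →
      (∃ ω : F, ω ^ 2 + ω + 1 = 0 ∧ PairEquiv σ (natRep ω)) ∨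
        (Module.finrank F L = 1 ∧ ∀ q x, σ q x = x)) ∧
    (∀ ω : F, ω ^ 2 + ω + 1 = 0 →
      (∀ ω' : F, ω' ^ 2 + ω' + 1 = 0 → PairEquiv (natRep ω) (natRep ω')) ∧
      ∃ (G : Type) (_ : Group G) (_ : Finite G) (ρ : Representation F G (F × F)) (Q : Subgroup G),
        ρ.IsIrreducible ∧ SelfDual ρ ∧ IsKleinFour Q ∧ IsVertexSource ρ Q (ρ.comp Q.subtype) ∧
        PairEquiv (ρ.comp Q.subtype) (natRep ω)) ∧
    ∃ (G : Type) (_ : Group G) (_ : Finite G) (ρ : Representation F G F) (Q : Subgroup G),
      ρ.IsIrreducible ∧ SelfDual ρ ∧ IsKleinFour Q ∧ IsVertexSource ρ Q (ρ.comp Q.subtype) :=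
  ⟨fun G _ _ V _ _ _ ρ Q L _ _ _ σ hρ hQ h hd =>
      sources_klein_duality F G V ρ Q L σ hρ hQ h hd,
    fun ω hω => ⟨fun ω' h' => nat_unique ω ω' hω h', occurs_natRep F ω hω⟩,
    occurs_trivial F⟩

end Pool.Agent.Results.MP_1993d0_al.KleinFourDuality
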