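import Mathlib
import Pool.Agent.KFV.FIN

open Representation Pool.Agent.KFV

namespace Pool.Agent.Results.MP_1993d0_al.KleinFourSources

universe u v w z

/-- Sources of simple modules with Klein four vertices: the sources of even dimension form exactly
one equivalence class, the one of the natural two-dimensional module over the field with four
elements; the others are Heller translates of the trivial module. -/
theorem result (F : Type u) [Field F] [IsAlgClosed F] [CharP F 2] :
    (∀ (G : Type v) [Group G] [Finite G] (V : Type w) [AddCommGroup V] [Module F V]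
      [FiniteDimensional F V] (ρ : Representation F G V) (Q : Subgroup G) (L : Type z)
      [AddCommGroup L] [Module F L] [FiniteDimensional F L] (σ : Representation F Q L),
      ρ.IsIrreducible → IsKleinFour Q → IsVertexSource ρ Q σ →
      (Even (Module.finrank F L) → ∃ ω : F, ω ^ 2 + ω + 1 = 0 ∧ PairEquiv σ (natRep ω)) ∧
      (Odd (Module.finrank F L) →
        ∃ n : ℕ, PairEquiv σ (zigRep F n) ∨ PairEquiv σ (zigRep F n).dual)) ∧
    (∀ ω ω' : F, ω ^ 2 + ω + 1 = 0 → ω' ^ 2 + ω' + 1 = 0 →
      PairEquiv (natRep ω) (natRep ω')) ∧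
    (∀ ω : F, ω ^ 2 + ω + 1 = 0 →
      ∃ (G : Type) (_ : Group G) (_ : Finite G) (ρ : Representation F G (F × F)) (Q : Subgroup G),
        ρ.IsIrreducible ∧ IsKleinFour Q ∧ IsVertexSource ρ Q (ρ.comp Q.subtype) ∧
        PairEquiv (ρ.comp Q.subtype) (natRep ω)) := by
  refine ⟨?_, fun ω ω' h h' => nat_unique ω ω' h h', ?_⟩
  · intro G _ _ V _ _ _ ρ Q L _ _ _ σ hρ hQ h
    have hlist := sources_klein F G V ρ hρ Q L σ h
    have hdim : ∀ {L' : Type _} [AddCommGroup L'] [Module F L'] (τ : Representation F K4 L'),
        PairEquiv σ τ → Module.finrank F L = Module.finrank F L' := by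
      intro L' _ _ τ hτ
      obtain ⟨φ, ⟨e⟩⟩ := hτ
      exact e.toLinearEquiv.finrank_eq
    have hnat : ∀ ω : F, PairEquiv σ (natRep ω) → Even (Module.finrank F L) := by
      intro ω hω
      rw [hdim (natRep ω) hω]
      simp
    have hzig : ∀ n : ℕ, PairEquiv σ (zigRep F n) → Odd (Module.finrank F L) := by
      intro n hn
      rw [hdim (zigRep F n) hn, Module.finrank_prod, Module.finrank_fin_fun,
        Module.finrank_fin_fun]
      exact ⟨n, by ring⟩
    have hzig' : ∀ n : ℕ, PairEquiv σ (zigRep F n).dual → Odd (Module.finrank F L) := by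
      intro n hn
      rw [hdim (zigRep F n).dual hn]
      change Odd (Module.finrank F (Module.Dual F _))
      rw [Subspace.dual_finrank_eq, Module.finrank_prod, Module.finrank_fin_fun,
        Module.finrank_fin_fun]
      exact ⟨n, by ring⟩
    constructor
    · intro hev
      rcases hlist with h1 | ⟨n, h1 | h1⟩
      · exact h1
      · exact absurd (hzig n h1) (Nat.not_odd_iff_even.2 hev)
      · exact absurd (hzig' n h1) (Nat.not_odd_iff_even.2 hev)
    · intro hodd
      rcases hlist with ⟨ω, -, h1⟩ | h1
      · exact absurd (hnat ω h1) (Nat.not_even_iff_odd.2 hodd)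
      · exact h1
  · intro ω hω
    obtain ⟨G, i1, i2, ρ, Q, h1, h2, h3, h4, h5⟩ := exists_natural F ω hω
    exact ⟨G, i1, i2, ρ, Q, h1, h3, h4, h5⟩

end Pool.Agent.Results.MP_1993d0_al.KleinFourSources
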