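import Mathlib
import Pool.Agent.KGS.Src

open Representation Pool.Agent.KFV Pool.Agent.KGS

namespace Pool.Agent.Results.MP_1993d0_al.SourcesBelowP

universe u v w z

/-- Sources of dimension less than `p` (`F` algebraically closed of characteristic `p`).
For a vertex-source pair `(Q, σ)` of a simple module of a finite group `G`: either some element of
the normaliser of `Q`, none of whose `p`-power powers is in `Q C(Q)`, fixes the isomorphism type of
`σ`, or every endomorphism of `σ` is a scalar up to relative traces from proper subgroups of `Q`
and, if the dimension of `σ` is less than `p`, then `σ` is trivial or isomorphic to the module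
`augRep F R` of the elements of sum zero of the permutation module `F[Q/R]`, for a subgroup `R` of
index `p`.  Consequently, if the outer automorphism group of the `p`-group `P` is a `p`-group, the
sources of dimension less than `p` of the simple modules with vertex `P` are exactly the trivial
module and the modules `augRep F R`. -/
theorem result (F : Type u) [Field F] [IsAlgClosed F] (p : ℕ) [Fact p.Prime] [CharP F p] :
    (∀ (G : Type v) [Group G] [Finite G] (Q : Subgroup G) (L : Type z) [AddCommGroup L]
      [Module F L] [FiniteDimensional F L] (σ : Representation F Q L), IsSrc.{u, v, w, z} Q σ →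
      Exc p Q σ ∨ (LocEnd σ ∧ (Module.finrank F L < p → IsTriv σ ∨
        ∃ R : Subgroup Q, R.index = p ∧ Nonempty (σ.Equiv (augRep F R))))) ∧
    ∀ (P : Type v) [Group P] [Finite P], IsPGroup p P →
      (OutP p P → ∀ (G : Type v) [Group G] [Finite G] (Q : Subgroup G) (L : Type z)
        [AddCommGroup L] [Module F L] [FiniteDimensional F L] (σ : Representation F Q L),
        IsSrc.{u, v, w, z} Q σ → Nonempty (Q ≃* P) → Module.finrank F L < p →
        IsTriv σ ∨ ∃ R : Subgroup P, R.index = p ∧ PairEquiv (W := augSub F R) σ (augRep F R)) ∧
      Occ.{u, v, v, u} (Representation.trivial F P F) ∧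
      (∀ R : Subgroup P, R.index = p → Occ.{u, v, max u v, max u v} (L := augSub F R) (augRep F R)) ∧
      (p ≠ 2 → ∀ R R' : Subgroup P, R.index = p → R'.index = p →
        (PairEquiv (V := augSub F R) (W := augSub F R') (augRep F R) (augRep F R') ↔
          ∃ φ : P ≃* P, R = R'.comap φ.toMonoidHom)) :=
  ⟨fun G _ _ Q L _ _ _ σ h => src_class F p G Q L σ h, fun P _ _ hP =>
    ⟨fun hA G _ _ Q L _ _ _ σ h he hd => src_class_out F p P hA G Q L σ h he hd,
      occ_trivial F p P hP, fun R hR => occ_augRep F p P hP R hR,
      fun hp2 R R' hR hR' => pairEquiv_augRep_iff F p hp2 R R'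
        (coatom_normal p hP R (isCoatom_of_index p R hR)) hR
        (coatom_normal p hP R' (isCoatom_of_index p R' hR')) hR'⟩⟩

end Pool.Agent.Results.MP_1993d0_al.SourcesBelowP
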